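import Mathlib
import Pool.Agent.H17.UConv

set_option autoImplicit false

namespace Pool.Agent.Results.MP_aa6101_gt.Neg
open Set Filter Topology Pool.Agent.H17.UConv

/-- Quasicontinuity of a real function. -/
def QC {X : Type} [TopologicalSpace X] (f : X → ℝ) : Prop :=
  ∀ (x : X) (U : Set X) (V : Set ℝ), IsOpen U → x ∈ U → IsOpen V → f x ∈ V →
    ∃ W, IsOpen W ∧ W.Nonempty ∧ W ⊆ U ∧ f '' W ⊆ V

theorem fu {X : Type} (p : X) (S : Set (X → ℝ)) (h : ∀ f ∈ S, {x | f x ≠ f p}.Countable) :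
    FrechetUrysohnSpace S := by
  refine ⟨fun A g hg => ?_⟩
  have : Nonempty X := ⟨p⟩
  have : Inhabited S := ⟨g⟩
  obtain ⟨s, F, h1, h2⟩ := gam (fun f : S => insert p ({x | f.1 x ≠ f.1 p} ∪ {x | g.1 x ≠ g.1 p}))
    (fun f => ((h _ f.2).union (h _ g.2)).insert p)
    (fun n F f => f ∈ A ∧ ∀ x ∈ F, dist (f.1 x) (g.1 x) < 1 / ((n : ℝ) + 1)) fun n F => by
      obtain ⟨f, h1, h2⟩ := mem_closure_iff.1 hg
        (⋂ x ∈ F, {f : S | dist (f.1 x) (g.1 x) < 1 / ((n : ℝ) + 1)})
        (isOpen_biInter_finset fun x _ => isOpen_lt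
          (((continuous_apply x).comp continuous_subtype_val).dist continuous_const) continuous_const)
        (mem_iInter₂.2 fun x _ => by simpa using Nat.cast_add_one_pos n)
      exact ⟨f, h2, fun x hx => mem_iInter₂.1 h1 x hx⟩
  have h3 : ∀ x, (∀ᶠ n in atTop, x ∈ F n) → Tendsto (fun n => (s n).1 x) atTop (𝓝 (g.1 x)) :=
    fun x hx => tendsto_iff_dist_tendsto_zero.2 (squeeze_zero' (.of_forall fun _ => dist_nonneg)
      (hx.mono fun n hn => ((h1 n).2 x hn).le) tendsto_one_div_add_atTop_nhds_zero_nat)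
  refine ⟨s, fun n => (h1 n).1, tendsto_subtype_rng.2 (tendsto_pi_nhds.2 fun x => ?_)⟩
  by_cases hx : ∃ i, x ∈ insert p ({x | (s i).1 x ≠ (s i).1 p} ∪ {x | g.1 x ≠ g.1 p})
  · obtain ⟨i, hi⟩ := hx
    exact h3 x (h2 i x hi)
  · simp only [mem_insert_iff, mem_union, mem_ofPred_eq, not_exists, not_or, not_not] at hx
    simpa only [Function.comp_def, (hx _).2.1, (hx 0).2.2] using h3 p (h2 0 p (mem_insert _ _))

theorem result : ∃ (X : Type) (_ : TopologicalSpace X), T2Space X ∧ Uncountable X ∧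
    FrechetUrysohnSpace {f : X → ℝ // QC f} ∧ ∃ N : Set X, IsNowhereDense N ∧ ¬ N.Countable := by
  obtain ⟨p, q, h1, h2, h3, h4, h5⟩ := conv
  let u : Option C → Ultrafilter ℕ := fun z => z.elim p q
  have hu : Function.Injective u := by
    rintro (_ | x) (_ | y) h
    exacts [rfl, (h2 y h.symm).elim, (h2 x h).elim, congrArg _ (h1 h)]
  let φ : Option C → Filter ℕ := fun z => u z
  have hi : Function.Injective fun x : C => (Sum.inr (some x) : Psi φ) := fun x y h => by
    cases h; rfl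
  have hl : ∀ f : Psi φ → ℝ, QC f → ∀ z V, IsOpen V → f (.inr z) ∈ V →
      {n | f (.inl n) ∈ V} ∈ u z := fun f hf z V hV h => by
    by_contra hn
    obtain ⟨W, a, b, c, d⟩ := hf _ _ V (op_nb (φ := φ) (Ultrafilter.compl_mem_iff_notMem.2 hn))
      (Or.inl rfl) hV h
    obtain ⟨m, hm⟩ := hit a b
    obtain h' | ⟨_, h', e⟩ := c hm <;> cases ‹_ = _›
    exact h' (d ⟨_, hm, rfl⟩)
  refine ⟨Psi φ, inferInstance, t2 (by rintro (_ | x); exacts [h3, h4 x]) fun z z' h =>
    Ultrafilter.disjoint_iff_not_le.2 fun e => h (hu (Ultrafilter.coe_le_coe.1 e)), hi.uncountable,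
    fu (.inr none) {f | QC f} fun f hf => ?_, range Sum.inr, ?_, fun h => ?_⟩
  · refine ((countable_range Sum.inl).union ((countable_iUnion fun k : ℕ => h5 _
      (hl f hf none (Metric.ball (f (.inr none)) (1 / ((k : ℝ) + 1))) Metric.isOpen_ball
        (Metric.mem_ball_self Nat.one_div_pos_of_nat))).image fun x => Sum.inr (some x))).mono ?_
    rintro (n | _ | x) hx
    · exact Or.inl ⟨n, rfl⟩
    · exact (hx rfl).elim
    · obtain ⟨k, hk⟩ := exists_nat_one_div_lt (dist_pos.2 hx)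
      refine Or.inr ⟨x, mem_iUnion.2 ⟨k, fun h => ?_⟩, rfl⟩
      obtain ⟨n, a, b⟩ := Ultrafilter.nonempty_of_mem (inter_mem h (hl f hf (some x)
        (Metric.closedBall (f (.inr none)) (1 / ((k : ℝ) + 1)))ᶜ
        Metric.isClosed_closedBall.isOpen_compl (not_le.2 hk)))
      exact b (Metric.ball_subset_closedBall a)
  · have hc : IsClosed (show Set (Psi φ) from range Sum.inr) :=
      ⟨fun z h => (h ⟨z, rfl⟩).elim⟩
    refine hc.isNowhereDense_iff.2 (eq_empty_of_forall_notMem fun x hx => ?_)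
    obtain ⟨m, hm⟩ := hit isOpen_interior ⟨x, hx⟩
    obtain ⟨_, h⟩ := interior_subset (X := Psi φ) hm
    cases h
  · refine not_countable_univ ((h.preimage_of_injOn hi.injOn).mono ?_)
    exact fun x _ => mem_range_self (some x)

end Pool.Agent.Results.MP_aa6101_gt.Neg
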